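import Pool.Agent.Lib_helper95.KV.Arb

/-!
# Arborescent links of plane trees with free and alternating vertices: definitions
-/

set_option autoImplicit false

namespace Pool.Agent.TRC.KV

open Pool.Agent.KV

/-- a vertex of weight `a` with `e` edges is big -/
def Big (a : ℤ) (e : ℕ) : Prop := 5 ≤ |a| ∨ 13 ≤ e

/-- The rule for an edge between a vertex of colour `k`, weight `p` and degree `d` and a vertex of
colour `c`, weight `a` and degree `e`. The colour `true` stands for a free vertex, `false` for an
alternating vertex. Two free vertices must be big. Two alternating vertices must have weights of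
opposite signs and of absolute value at least `3`. A free and an alternating vertex must be big and
have weights of opposite signs, and the weight of the alternating one is at least `3` and more than a
quarter of its degree in absolute value. -/
def Joins : Bool → ℤ → ℕ → Bool → ℤ → ℕ → Prop
  | true, p, d, true, a, e => Big p d ∧ Big a e
  | false, p, _, false, a, _ => p * a < 0 ∧ 3 ≤ |p| ∧ 3 ≤ |a|
  | true, p, d, false, a, e => p * a < 0 ∧ Big p d ∧ Big a e ∧ 3 ≤ |a| ∧ (e : ℤ) < 4 * |a|
  | false, p, d, true, a, e => p * a < 0 ∧ Big p d ∧ Big a e ∧ 3 ≤ |p| ∧ (d : ℤ) < 4 * |p|

/-- The diagrams of plane forests with `n` trees and integer weights, which hang below a vertex of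
colour `k`, weight `p` and degree `d`; the vertices have colours such that all the edges (those which
join the roots to the vertex above included) satisfy the rule `Joins`. The diagram consists of the
tangles of its trees, each turned by a right angle, on top of each other. The tangle of a tree with
root of weight `a` is a twist region of `|a|` crossings followed by the tangle of the forest `F` of
the subtrees of the root. -/
inductive Forest : Bool → ℤ → ℕ → ℕ → List Piece → Prop
  | nil (k : Bool) (p : ℤ) (d : ℕ) : Forest k p d 0 []
  | cons (k : Bool) (p : ℤ) (d : ℕ) (c : Bool) (a : ℤ) (m n : ℕ) (F G : List Piece) :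
      Forest c a (m + 1) m F → Forest k p d n G → Joins k p d c a (m + 1) →
      Forest k p d (n + 1) (.cup 2 :: ((.twist 0 a :: F).map shift ++ .cap 0 :: G))

end Pool.Agent.TRC.KV
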