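import Pool.Agent.Lib_helper75.TR7.GeoE
import Pool.Agent.Lib_helper11.TRC.Def

/-!
# TREE3 with colours: the interface between the analysis and the geometry
-/

set_option autoImplicit false

open Filter Topology

namespace Pool.Agent.TRC

open Pool.Agent.TB

/-- the rules for the edges of a forest below a vertex of colour `k`, weight `p` and degree `d` -/
def Fiv : Bool → ℤ → ℕ → Forest → Prop
  | _, _, _, .nil => True
  | k, p, d, .cons a F G => ∃ c : Bool, KV.Joins k p d c a (width F + 1) ∧
      Fiv c a (width F + 1) F ∧ Fiv k p d G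

/-- **(ASY)** -/
def AsyT : Prop := ∀ (k : Bool) (a : ℤ) (F : Forest), F ≠ .nil → Fiv k a (width F) F →
  ∃ (w : ℂ) (L : Lab) (C : ℂ), C ≠ 0 ∧ Pool.Agent.TR7.CritRootE a F w L ∧
    Tendsto (fun N : ℕ => (N : ℂ) ^ (-3 / 2 : ℂ) * Complex.exp (-(N * actRoot a F w L)) *
      (om N a * M N a (RF N F))) atTop (𝓝 C)

end Pool.Agent.TRC
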